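import Pool.Agent.PGZ.Defs

/-! # PGZ2 (MP_039d94_nt): products of Hilbert schemes of points: definitions -/

set_option autoImplicit false

noncomputable section

namespace Pool.Agent.PGZ2

open Module Finset

/-- The trace of `φ` on the `q`-th symmetric power: the coefficient of `X ^ q` in
`1 / det (1 - X φ)`; here `det (1 - X φ)` is the reverse of the characteristic polynomial. -/
def symTr {Λ : Type*} [AddCommGroup Λ] [Module.Free ℤ Λ] [Module.Finite ℤ Λ]
    (φ : Λ →ₗ[ℤ] Λ) (q : ℕ) : ℤ :=
  PowerSeries.coeff q (PowerSeries.invOfUnit ((φ.charpoly.reverse : Polynomial ℤ) : PowerSeries ℤ) 1)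

/-- The index set of Göttsche's formula: exponents `(p_k, q_k, r_k)` for `k = 1, ..., n` with
`∑ k (p_k + q_k + r_k) = n` and `∑ ((k - 1) p_k + k q_k + (k + 1) r_k) = j`. -/
def gIdx (n j : ℕ) : Finset (Fin n → Fin (n + 1) × Fin (n + 1) × Fin (n + 1)) :=
  univ.filter fun v =>
    ∑ i : Fin n, ((i : ℕ) + 1) * ((v i).1 + (v i).2.1 + (v i).2.2 : ℕ) = n ∧
    ∑ i : Fin n, ((i : ℕ) * (v i).1 + ((i : ℕ) + 1) * (v i).2.1 + ((i : ℕ) + 2) * (v i).2.2 : ℕ) = j

/-- Göttsche's formula for the degree `2 j` of the Hilbert scheme of `n` points of a surface without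
odd cohomology: the coefficient of `y ^ j t ^ n` in
`∏_{k ≥ 1} (1 - y ^ (k - 1) t ^ k)⁻¹ (∑_q h q (y ^ k t ^ k) ^ q) (1 - y ^ (k + 1) t ^ k)⁻¹`,
where `h q` is the trace on the `q`-th symmetric power of the second cohomology. -/
def gott (h : ℕ → ℤ) (n j : ℕ) : ℤ := ∑ v ∈ gIdx n j, ∏ i : Fin n, h ((v i).2.1 : ℕ)

/-- Signed permutation characters of `G`: `ι` is a finite `G`-set and `ε` a sign cocycle. -/
def SC (G : Type) [Group G] (f : G → ℤ) : Prop :=
  ∃ (ι : Type) (_ : Fintype ι) (_ : DecidableEq ι) (_ : MulAction G ι) (ε : G → ι → ℤˣ),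
    (∀ g h i, ε (g * h) i = ε g (h • i) * ε h i) ∧
    ∀ g, f g = ∑ i ∈ univ.filter (fun i => g • i = i), ((ε g i : ℤˣ) : ℤ)

/-- The extension by zero of a function on the subgroup `H`. -/
def extend {G : Type} [Group G] (H : Subgroup G) (f : H → ℤ) (x : G) : ℤ :=
  open Classical in if h : x ∈ H then f ⟨x, h⟩ else 0

/-- The induced character: the sum of `f (x⁻¹ g x)` over the cosets `x H` fixed by `g`. -/
def indCh {G : Type} [Group G] (H : Subgroup G) (f : H → ℤ) (g : G) : ℤ :=
  ∑ᶠ x : G ⧸ H, extend H f (x.out⁻¹ * g * x.out)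

/-- The length of the cycle of `x` under the permutation `g`. -/
def per {G : Type} [Group G] {X : Type} [MulAction G X] (g : G) (x : X) : ℕ :=
  Function.minimalPeriod (fun y : X => g • y) x

/-- The set of cycles of `g` on `X`. -/
abbrev Cyc {G : Type} [Group G] (g : G) (X : Type) [MulAction G X] : Type :=
  MulAction.orbitRel.Quotient (Subgroup.zpowers g) X

/-- Tensor induction of a graded character: the coefficient of `y ^ j` in the product over the
cycles `x H, g x H, ..., g ^ (l - 1) x H` of `g` on `G ⧸ H` of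
`∑_d a d (x⁻¹ g ^ l x) y ^ (l d)`. -/
def weilCh {G : Type} [Group G] (H : Subgroup G) (a : ℕ → H → ℤ) (j : ℕ) (g : G) : ℤ :=
  PowerSeries.coeff j (∏ᶠ ω : Cyc g (G ⧸ H), PowerSeries.mk fun n =>
    if per g ω.out ∣ n then
      extend H (a (n / per g ω.out)) (ω.out.out⁻¹ * g ^ per g ω.out * ω.out.out) else 0)

/-- The character of `Λ` is a signed permutation character, or the sum of one and of the character
of a lattice `N` which satisfies the lattice conditions of a surface with `p_g = 0` and
`b₂ - ρ ≤ 5`. (`Λ` is the second cohomology of a surface obtained by blowing up closed points.) -/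
def Good (G : Type) [Group G] (Λ : Type) [AddCommGroup Λ] [DistribMulAction G Λ] : Prop :=
  SC G (fun g => LinearMap.trace ℤ Λ (PGZ.act Λ g)) ∨
    ∃ (N : Type) (_ : AddCommGroup N) (_ : Module.Free ℤ N) (_ : Module.Finite ℤ N)
      (_ : DistribMulAction G N) (B : N →ₗ[ℤ] N →ₗ[ℤ] ℤ) (w : N) (ε : ℤ) (f : G → ℤ),
      PGZ.IsCyc G B w ε ∧ PGZ.RankOK G B w ε ∧ SC G f ∧
        ∀ g, LinearMap.trace ℤ Λ (PGZ.act Λ g) = LinearMap.trace ℤ N (PGZ.act N g) + f g

/-- The class of graded characters: `a j` stands for the character of the Galois group `G` on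
`H^{2j}(X)(j)`. It contains the signed permutation characters and the Hilbert schemes of `n` points
of the surfaces with second cohomology `Λ`, and is closed under sums, products, restriction,
induction (varieties over a number field, viewed over `ℚ`) and tensor induction (Weil
restriction). -/
inductive Cls : (G : Type) → [Group G] → (ℕ → G → ℤ) → Prop
  | perm (G : Type) [Group G] (a : ℕ → G → ℤ) (h : ∀ j, SC G (a j)) : Cls G a
  | hilb (G : Type) [Group G] (Λ : Type) [AddCommGroup Λ] [Module.Free ℤ Λ] [Module.Finite ℤ Λ]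
      [DistribMulAction G Λ] (h : Good G Λ) (n : ℕ) :
      Cls G (fun j g => gott (symTr (PGZ.act Λ g)) n j)
  | add (G : Type) [Group G] (a b : ℕ → G → ℤ) : Cls G a → Cls G b →
      Cls G (fun j g => a j g + b j g)
  | prod (G : Type) [Group G] (a b : ℕ → G → ℤ) : Cls G a → Cls G b →
      Cls G (fun j g => ∑ x ∈ antidiagonal j, a x.1 g * b x.2 g)
  | res (G : Type) [Group G] [Finite G] (H : Subgroup G) (a : ℕ → G → ℤ) : Cls G a →
      Cls H (fun j h => a j h)
  | ind (G : Type) [Group G] (H : Subgroup G) (a : ℕ → H → ℤ) : Cls H a →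
      Cls G (fun j => indCh H (a j))
  | weil (G : Type) [Group G] (H : Subgroup G) (a : ℕ → H → ℤ) : Cls H a →
      Cls G (weilCh H a)

end Pool.Agent.PGZ2
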