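import Pool.Agent.PGZ2.Defs

/-! # PGZ2: signed permutation characters are closed under sums and products -/

set_option autoImplicit false

noncomputable section

namespace Pool.Agent.PGZ2

open Module Finset

variable {G : Type} [Group G]

theorem SC.congr {f f' : G → ℤ} (h : SC G f) (e : ∀ g, f' g = f g) : SC G f' := by
  obtain ⟨ι, i1, i2, i3, ε, h1, h2⟩ := h
  exact ⟨ι, i1, i2, i3, ε, h1, fun g => (e g).trans (h2 g)⟩

theorem SC.zero : SC G (fun _ => 0) := by
  let _ : MulAction G Empty :=
    { smul := fun _ x => x
      one_smul := fun x => x.elim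
      mul_smul := fun _ _ x => x.elim }
  exact ⟨Empty, inferInstance, inferInstance, inferInstance, fun _ _ => 1, fun _ _ i => i.elim,
    fun g => by simp⟩

theorem SC.one : SC G (fun _ => 1) := by
  let _ : MulAction G Unit :=
    { smul := fun _ x => x
      one_smul := fun _ => rfl
      mul_smul := fun _ _ _ => rfl }
  refine ⟨Unit, inferInstance, inferInstance, inferInstance, fun _ _ => 1, fun _ _ _ => by simp,
    fun g => ?_⟩
  have : (univ.filter (fun i : Unit => g • i = i)) = univ :=
    Finset.filter_true_of_mem (fun i _ => rfl)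
  rw [this]
  simp

theorem SC.add {f f' : G → ℤ} (h : SC G f) (h' : SC G f') : SC G (fun g => f g + f' g) := by
  obtain ⟨ι, i1, i2, i3, ε, h1, h2⟩ := h
  obtain ⟨κ, j1, j2, j3, δ, k1, k2⟩ := h'
  let _ : MulAction G (ι ⊕ κ) :=
    { smul := fun g x => Sum.map (fun i => g • i) (fun i => g • i) x
      one_smul := fun x => by
        rcases x with x | x
        · exact congrArg Sum.inl (one_smul G x)
        · exact congrArg Sum.inr (one_smul G x)
      mul_smul := fun a b x => by
        rcases x with x | x
        · exact congrArg Sum.inl (mul_smul a b x)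
        · exact congrArg Sum.inr (mul_smul a b x) }
  have e1 : ∀ (g : G) (i : ι), g • (Sum.inl i : ι ⊕ κ) = Sum.inl (g • i) := fun g i => rfl
  have e2 : ∀ (g : G) (i : κ), g • (Sum.inr i : ι ⊕ κ) = Sum.inr (g • i) := fun g i => rfl
  refine ⟨ι ⊕ κ, inferInstance, inferInstance, inferInstance,
    fun g x => Sum.elim (ε g) (δ g) x, ?_, ?_⟩
  · intro a b x
    rcases x with x | x
    · exact h1 a b x
    · exact k1 a b x
  · intro g
    change f g + f' g = _
    rw [h2 g, k2 g, Finset.sum_filter, Finset.sum_filter, Finset.sum_filter, Fintype.sum_sum_type]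
    congr 1
    · refine Finset.sum_congr rfl fun i _ => ?_
      simp only [e1, Sum.inl.injEq, Sum.elim_inl]
    · refine Finset.sum_congr rfl fun i _ => ?_
      simp only [e2, Sum.inr.injEq, Sum.elim_inr]

theorem SC.mul {f f' : G → ℤ} (h : SC G f) (h' : SC G f') : SC G (fun g => f g * f' g) := by
  obtain ⟨ι, i1, i2, i3, ε, h1, h2⟩ := h
  obtain ⟨κ, j1, j2, j3, δ, k1, k2⟩ := h'
  refine ⟨ι × κ, inferInstance, inferInstance, inferInstance,
    fun g x => ε g x.1 * δ g x.2, ?_, ?_⟩
  · intro a b x
    simp only [h1, k1, Prod.smul_fst, Prod.smul_snd]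
    exact mul_mul_mul_comm _ _ _ _
  · intro g
    change f g * f' g = _
    rw [h2 g, k2 g, Finset.sum_mul_sum]
    rw [← Finset.sum_product' (f := fun i j => ((ε g i : ℤˣ) : ℤ) * ((δ g j : ℤˣ) : ℤ))]
    refine Finset.sum_congr ?_ fun x _ => by push_cast; rfl
    ext x
    simp only [Finset.mem_product, Finset.mem_filter, Finset.mem_univ, true_and, Prod.ext_iff,
      Prod.smul_fst, Prod.smul_snd]

theorem SC.sum {κ : Type*} (s : Finset κ) (f : κ → G → ℤ) (h : ∀ k ∈ s, SC G (f k)) :
    SC G (fun g => ∑ k ∈ s, f k g) := by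
  classical
  induction s using Finset.induction_on with
  | empty => exact SC.zero.congr fun g => by simp
  | insert a s ha ih =>
    refine ((h a (Finset.mem_insert_self a s)).add
      (ih fun k hk => h k (Finset.mem_insert_of_mem hk))).congr fun g => ?_
    rw [Finset.sum_insert ha]

theorem SC.prod {κ : Type*} (s : Finset κ) (f : κ → G → ℤ) (h : ∀ k ∈ s, SC G (f k)) :
    SC G (fun g => ∏ k ∈ s, f k g) := by
  classical
  induction s using Finset.induction_on with
  | empty => exact SC.one.congr fun g => by simp
  | insert a s ha ih =>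
    refine ((h a (Finset.mem_insert_self a s)).mul
      (ih fun k hk => h k (Finset.mem_insert_of_mem hk))).congr fun g => ?_
    rw [Finset.prod_insert ha]

theorem SC.natCast (c : ℕ) : SC G (fun _ => (c : ℤ)) := by
  induction c with
  | zero => exact SC.zero.congr fun g => by simp
  | succ n ih => exact (ih.add SC.one).congr fun g => by push_cast; rfl

/-- Göttsche's formula preserves signed permutation characters. -/
theorem SC.gott {h : G → ℕ → ℤ} (H : ∀ q, SC G (fun g => h g q)) (n j : ℕ) :
    SC G (fun g => gott (h g) n j) :=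
  SC.sum _ _ fun _ _ => SC.prod _ _ fun _ _ => H _

end Pool.Agent.PGZ2
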