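import Pool.Agent.PGZ2.Defs

/-! # PGZ2: traces on symmetric powers from Newton's identity -/

set_option autoImplicit false

noncomputable section

namespace Pool.Agent.PGZ2

open Module Finset

private theorem Key_basis {V : Type*} [AddCommGroup V] [Module ℂ V] [FiniteDimensional ℂ V]
    (φ : V →ₗ[ℂ] V) (N : ℕ) (hN : 0 < N) (h : φ ^ N = 1) :
    ∃ (I : Type) (_ : Fintype I) (b : Basis I ℂ V) (μ : I → ℂ), ∀ i, φ (b i) = μ i • b i := by
  classical
  have hss : Module.End.IsSemisimple (φ : Module.End ℂ V) := by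
    have hsq : Squarefree ((Polynomial.X ^ N - 1 : Polynomial ℂ)) :=
      (Polynomial.X_pow_sub_one_separable_iff.2 (by exact_mod_cast hN.ne')).squarefree
    refine Module.End.isSemisimple_of_squarefree_aeval_eq_zero hsq ?_
    simp [h]
  let eigenDecomp := DirectSum.isInternal_submodule_of_iSupIndep_of_iSup_eq_top
    (Module.End.eigenspaces_iSupIndep φ) hss.iSup_eigenspace_eq_top
  let I := (ν : ℂ) × Fin (finrank ℂ (Module.End.eigenspace φ ν))
  let v : Basis I ℂ V :=
    eigenDecomp.collectedBasis fun μ ↦ finBasis ℂ (Module.End.eigenspace φ μ)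
  have hF : Fintype I := FiniteDimensional.fintypeBasisIndex v
  exact ⟨I, hF, v, Sigma.fst, fun i =>
    Module.End.mem_eigenspace_iff.mp (eigenDecomp.collectedBasis_mem _ i)⟩

/-- The reverse of a linear polynomial. -/
private theorem Key_rev_lin (μ : ℂ) :
    (Polynomial.X - Polynomial.C μ).reverse = 1 - Polynomial.C μ * Polynomial.X := by
  have h1 : (Polynomial.X - Polynomial.C μ).natDegree = 1 := Polynomial.natDegree_X_sub_C μ
  ext n
  rw [Polynomial.coeff_reverse, h1]
  rcases n with _ | _ | n
  · simp [Polynomial.revAt_le]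
  · simp [Polynomial.revAt_le, Polynomial.coeff_one]
  · have : Polynomial.revAt 1 (n + 1 + 1) = n + 1 + 1 := Polynomial.revAt_eq_self_of_lt (by omega)
    rw [this]
    simp [Polynomial.coeff_X, Polynomial.coeff_one]

private theorem Key_rev_prod {I : Type} (s : Finset I) (μ : I → ℂ) :
    (∏ i ∈ s, (Polynomial.X - Polynomial.C (μ i))).reverse =
      ∏ i ∈ s, (1 - Polynomial.C (μ i) * Polynomial.X) := by
  classical
  induction s using Finset.induction_on with
  | empty =>
    rw [prod_empty, prod_empty, ← Polynomial.C_1, Polynomial.reverse_C]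
  | insert a s ha ih =>
    rw [prod_insert ha, prod_insert ha, Polynomial.reverse_mul_of_domain, ih, Key_rev_lin]

/-- `∑ μ ^ k X ^ k`. -/
private def gg (μ : ℂ) : PowerSeries ℂ := PowerSeries.mk fun k => μ ^ k

private theorem gg_spec (μ : ℂ) : (1 - PowerSeries.C μ * PowerSeries.X) * gg μ = 1 := by
  ext n
  rw [sub_mul, one_mul, mul_assoc, map_sub, PowerSeries.coeff_C_mul]
  rcases n with _ | n
  · simp [gg]
  · rw [PowerSeries.coeff_succ_X_mul, gg, PowerSeries.coeff_mk, PowerSeries.coeff_mk, pow_succ',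
      sub_self, PowerSeries.coeff_one, if_neg (Nat.succ_ne_zero n)]

private theorem Key_logder {I : Type} (s : Finset I) (μ : I → ℂ) :
    PowerSeries.X * PowerSeries.derivative ℂ
        (∏ i ∈ s, (1 - PowerSeries.C (μ i) * PowerSeries.X)) =
      -((∏ i ∈ s, (1 - PowerSeries.C (μ i) * PowerSeries.X)) * ∑ i ∈ s, (gg (μ i) - 1)) := by
  classical
  induction s using Finset.induction_on with
  | empty => simp
  | insert a s ha ih =>
    rw [prod_insert ha, sum_insert ha, Derivation.leibniz, smul_eq_mul, smul_eq_mul, mul_add]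
    have h1 : PowerSeries.X * PowerSeries.derivative ℂ (1 - PowerSeries.C (μ a) * PowerSeries.X) =
        -((1 - PowerSeries.C (μ a) * PowerSeries.X) * (gg (μ a) - 1)) := by
      rw [mul_sub, gg_spec, map_sub, Derivation.map_one_eq_zero, Derivation.leibniz]
      have h2 : PowerSeries.derivative ℂ (PowerSeries.C (μ a)) = 0 := by
        exact PowerSeries.derivative_C
      rw [h2, PowerSeries.derivative_X]
      simp only [smul_eq_mul]
      ring
    have e : PowerSeries.X * ((1 - PowerSeries.C (μ a) * PowerSeries.X) *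
          PowerSeries.derivative ℂ (∏ i ∈ s, (1 - PowerSeries.C (μ i) * PowerSeries.X))) =
        (1 - PowerSeries.C (μ a) * PowerSeries.X) * (PowerSeries.X *
          PowerSeries.derivative ℂ (∏ i ∈ s, (1 - PowerSeries.C (μ i) * PowerSeries.X))) := by ring
    have e' : PowerSeries.X * ((∏ i ∈ s, (1 - PowerSeries.C (μ i) * PowerSeries.X)) *
          PowerSeries.derivative ℂ (1 - PowerSeries.C (μ a) * PowerSeries.X)) =
        (∏ i ∈ s, (1 - PowerSeries.C (μ i) * PowerSeries.X)) *
          (PowerSeries.X * PowerSeries.derivative ℂ (1 - PowerSeries.C (μ a) * PowerSeries.X)) := by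
      ring
    rw [e, e', ih, h1]
    ring

theorem symTr_eq {Λ : Type*} [AddCommGroup Λ] [Module.Free ℤ Λ] [Module.Finite ℤ Λ]
    (φ : Λ →ₗ[ℤ] Λ) (N : ℕ) (hN : 0 < N) (h : φ ^ N = 1) (S : ℕ → ℤ) (h0 : S 0 = 1)
    (hS : ∀ q : ℕ, (q : ℤ) * S q = ∑ k ∈ Icc 1 q, LinearMap.trace ℤ Λ (φ ^ k) * S (q - k))
    (q : ℕ) : symTr φ q = S q := by
  classical
  set ψ := φ.baseChange ℂ with hψ
  have hψN : ψ ^ N = 1 := by
    rw [hψ, ← LinearMap.baseChange_pow, h, Module.End.one_eq_id, LinearMap.baseChange_id]
    rfl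
  obtain ⟨I, hI, b, μ, hb⟩ := Key_basis ψ N hN hψN
  have hpow : ∀ (n : ℕ) (i : I), (ψ ^ n) (b i) = μ i ^ n • b i := by
    intro n i
    induction n with
    | zero => simp
    | succ n ih => rw [pow_succ', Module.End.mul_apply, ih, map_smul, hb, smul_smul, pow_succ]
  have htr : ∀ n : ℕ, ((LinearMap.trace ℤ Λ (φ ^ n) : ℤ) : ℂ) = ∑ i, μ i ^ n := by
    intro n
    have h1 : ((LinearMap.trace ℤ Λ (φ ^ n) : ℤ) : ℂ) = LinearMap.trace ℂ _ (ψ ^ n) := by
      rw [hψ, ← LinearMap.baseChange_pow, LinearMap.trace_baseChange]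
      rfl
    rw [h1, LinearMap.trace_eq_matrix_trace ℂ b, Matrix.trace]
    refine Finset.sum_congr rfl fun i _ => ?_
    rw [Matrix.diag_apply, LinearMap.toMatrix_apply, hpow, map_smul, Finsupp.smul_apply,
      Basis.repr_self, Finsupp.single_eq_same, smul_eq_mul, mul_one]
  have hchar : φ.charpoly.map (Int.castRingHom ℂ) = ∏ i, (Polynomial.X - Polynomial.C (μ i)) := by
    have h1 : ψ.charpoly = φ.charpoly.map (Int.castRingHom ℂ) := by
      rw [hψ, LinearMap.charpoly_baseChange]
      rfl
    rw [← h1, ← LinearMap.charpoly_toMatrix ψ b]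
    have : LinearMap.toMatrix b b ψ = Matrix.diagonal μ := by
      ext i j
      rw [LinearMap.toMatrix_apply, hb, map_smul, Finsupp.smul_apply, Basis.repr_self,
        Matrix.diagonal_apply]
      by_cases hij : i = j
      · subst hij
        rw [Finsupp.single_eq_same, if_pos rfl, smul_eq_mul, mul_one]
      · rw [Finsupp.single_eq_of_ne hij, if_neg hij, smul_zero]
    rw [this, Matrix.charpoly_diagonal]
  have hmon : φ.charpoly.Monic := φ.charpoly_monic
  have hrev : φ.charpoly.reverse.map (Int.castRingHom ℂ) =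
      ∏ i, (1 - Polynomial.C (μ i) * Polynomial.X) := by
    rw [← Key_rev_prod, ← hchar, Polynomial.reverse, Polynomial.reverse, hmon.natDegree_map,
      Polynomial.reflect_map]
  set D : PowerSeries ℤ := ((φ.charpoly.reverse : Polynomial ℤ) : PowerSeries ℤ) with hD
  set DC : PowerSeries ℂ := ∏ i, (1 - PowerSeries.C (μ i) * PowerSeries.X) with hDC
  have hDmap : PowerSeries.map (Int.castRingHom ℂ) D = DC := by
    rw [hD, ← Polynomial.polynomial_map_coe, hrev, hDC]
    have : ∀ i, (1 - PowerSeries.C (μ i) * PowerSeries.X : PowerSeries ℂ) =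
        ((1 - Polynomial.C (μ i) * Polynomial.X : Polynomial ℂ) : PowerSeries ℂ) := by
      intro i
      simp
    rw [Finset.prod_congr rfl fun i _ => this i]
    exact map_prod (Polynomial.coeToPowerSeries.ringHom) _ _
  set H : PowerSeries ℤ := PowerSeries.mk S with hH
  set HC : PowerSeries ℂ := PowerSeries.map (Int.castRingHom ℂ) H with hHC
  have hHder : PowerSeries.X * PowerSeries.derivative ℂ HC = (∑ i, (gg (μ i) - 1)) * HC := by
    ext n
    have h1 : PowerSeries.coeff n (PowerSeries.X * PowerSeries.derivative ℂ HC) = (n : ℂ) * (S n : ℂ) := by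
      rcases n with _ | n
      · simp
      · rw [PowerSeries.coeff_succ_X_mul, PowerSeries.coeff_derivative, hHC, hH]
        simp [mul_comm]
    rw [h1, PowerSeries.coeff_mul]
    have h2 := congrArg (fun z : ℤ => (z : ℂ)) (hS n)
    simp only [Int.cast_mul, Int.cast_sum, Int.cast_natCast] at h2
    rw [h2, Finset.Nat.sum_antidiagonal_eq_sum_range_succ_mk, Finset.sum_range_succ']
    have h3 : PowerSeries.coeff 0 (∑ i, (gg (μ i) - 1)) = 0 := by
      simp [gg]
    simp only [h3, zero_mul, add_zero]
    have hIcc : Icc 1 n = Ico 1 (n + 1) := by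
      ext x
      rw [mem_Icc, mem_Ico]
      omega
    rw [hIcc, Finset.sum_Ico_eq_sum_range, Nat.add_sub_cancel]
    refine Finset.sum_congr rfl fun k _ => ?_
    have h4 : PowerSeries.coeff (k + 1) (∑ i, (gg (μ i) - 1)) = ∑ i, μ i ^ (k + 1) := by
      rw [map_sum]
      refine Finset.sum_congr rfl fun i _ => ?_
      rw [map_sub, gg, PowerSeries.coeff_mk, PowerSeries.coeff_one, if_neg (Nat.succ_ne_zero k),
        sub_zero]
    rw [htr, add_comm 1 k, h4, hHC, hH, PowerSeries.coeff_map, PowerSeries.coeff_mk]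
    rfl
  have hprod : DC * HC = 1 := by
    have h1 : PowerSeries.X * PowerSeries.derivative ℂ (DC * HC) = 0 := by
      rw [Derivation.leibniz, smul_eq_mul, smul_eq_mul]
      have e : PowerSeries.X * (DC * PowerSeries.derivative ℂ HC + HC * PowerSeries.derivative ℂ DC) =
          DC * (PowerSeries.X * PowerSeries.derivative ℂ HC) +
            HC * (PowerSeries.X * PowerSeries.derivative ℂ DC) := by ring
      rw [e, hHder, hDC, Key_logder]
      ring
    ext n
    rcases n with _ | n
    · rw [← hDmap, hHC, ← map_mul, PowerSeries.coeff_map, PowerSeries.coeff_zero_eq_constantCoeff,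
        map_mul]
      have h2 : PowerSeries.constantCoeff D = 1 := by
        rw [hD, Polynomial.constantCoeff_coe, Polynomial.coeff_zero_reverse, hmon.leadingCoeff]
      rw [h2, hH]
      simp [h0]
    · have h2 := congrArg (PowerSeries.coeff (n + 1)) h1
      rw [PowerSeries.coeff_succ_X_mul, PowerSeries.coeff_derivative, map_zero] at h2
      have h3 : ((n : ℂ) + 1) ≠ 0 := by exact_mod_cast Nat.succ_ne_zero n
      rcases mul_eq_zero.1 h2 with h4 | h4
      · rw [h4, PowerSeries.coeff_one, if_neg (Nat.succ_ne_zero n)]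
      · exact absurd h4 h3
  have hDH : D * H = 1 := by
    have hinj : Function.Injective (PowerSeries.map (Int.castRingHom ℂ)) :=
      PowerSeries.map_injective _ (RingHom.injective_int _)
    apply hinj
    rw [map_mul, hDmap, map_one]
    exact hprod
  have hc : PowerSeries.constantCoeff D = ((1 : ℤˣ) : ℤ) := by
    rw [hD, Polynomial.constantCoeff_coe, Polynomial.coeff_zero_reverse, hmon.leadingCoeff,
      Units.val_one]
  have hinv : D * PowerSeries.invOfUnit D 1 = 1 := PowerSeries.mul_invOfUnit D 1 hc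
  have : PowerSeries.invOfUnit D 1 = H := by
    calc PowerSeries.invOfUnit D 1 = (D * H) * PowerSeries.invOfUnit D 1 := by rw [hDH, one_mul]
      _ = H * (D * PowerSeries.invOfUnit D 1) := by ring
      _ = H := by rw [hinv, mul_one]
  rw [symTr, ← hD, this, hH, PowerSeries.coeff_mk]

end Pool.Agent.PGZ2
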