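import Pool.Agent.PGZ2.Defs

/-! # PGZ2: Newton's identity for symmetric powers of signed permutations -/

set_option autoImplicit false

noncomputable section

namespace Pool.Agent.PGZ2

open Finset

variable {ι : Type} [Fintype ι] [DecidableEq ι]

/-- The `σ`-invariant exponents of total degree `q`. -/
def invEx (σ : ι → ι) (q : ℕ) : Finset (ι → ℕ) :=
  (piAntidiag univ q).filter fun m => ∀ i, m (σ i) = m i

theorem mem_invEx {σ : ι → ι} {q : ℕ} {m : ι → ℕ} :
    m ∈ invEx σ q ↔ ∑ i, m i = q ∧ ∀ i, m (σ i) = m i := by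
  rw [invEx, mem_filter, mem_piAntidiag]
  simp

/-- The weight of an exponent. -/
def wt (η : ι → ℤˣ) (m : ι → ℕ) : ℤ := ∏ i, ((η i : ℤˣ) : ℤ) ^ m i

/-- The trace of the signed permutation on the `q`-th symmetric power. -/
def symS (σ : ι → ι) (η : ι → ℤˣ) (q : ℕ) : ℤ := ∑ m ∈ invEx σ q, wt η m

/-- The trace of the `k`-th power of the signed permutation. -/
def powS (σ : Equiv.Perm ι) (η : ι → ℤˣ) (k : ℕ) : ℤ :=
  ∑ i ∈ univ.filter (fun i => (σ ^ k) i = i), ∏ j ∈ range k, ((η ((σ ^ j) i) : ℤˣ) : ℤ)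

/-- The number of visits of `x` by the orbit of `i` up to time `k`. -/
def vis (σ : Equiv.Perm ι) (i : ι) (k : ℕ) (x : ι) : ℕ :=
  ∑ j ∈ range k, if (σ ^ j) i = x then 1 else 0

theorem sum_vis (σ : Equiv.Perm ι) (i : ι) (k : ℕ) : ∑ x, vis σ i k x = k := by
  unfold vis
  rw [sum_comm]
  simp

theorem wt_vis (σ : Equiv.Perm ι) (η : ι → ℤˣ) (i : ι) (k : ℕ) :
    wt η (vis σ i k) = ∏ j ∈ range k, ((η ((σ ^ j) i) : ℤˣ) : ℤ) := by
  unfold wt vis
  have h : ∀ x, ((η x : ℤˣ) : ℤ) ^ (∑ j ∈ range k, if (σ ^ j) i = x then 1 else 0) =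
      ∏ j ∈ range k, if (σ ^ j) i = x then ((η x : ℤˣ) : ℤ) else 1 := by
    intro x
    rw [← prod_pow_eq_pow_sum]
    refine prod_congr rfl fun j _ => ?_
    split_ifs <;> simp
  rw [prod_congr rfl fun x _ => h x, prod_comm]
  refine prod_congr rfl fun j _ => ?_
  rw [prod_ite_eq]
  simp

omit [Fintype ι] in
theorem vis_inv (σ : Equiv.Perm ι) {i : ι} {k : ℕ} (h : (σ ^ k) i = i) (x : ι) :
    vis σ i k (σ x) = vis σ i k x := by
  unfold vis
  have h1 : ∑ j ∈ range (k + 1), (if (σ ^ j) i = σ x then 1 else 0) =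
      ∑ j ∈ range k, (if (σ ^ j) i = x then 1 else 0) + (if i = σ x then 1 else 0) := by
    rw [sum_range_succ']
    congr 1
    refine sum_congr rfl fun j _ => ?_
    simp only [pow_succ', Equiv.Perm.mul_apply, σ.injective.eq_iff]
  rw [sum_range_succ, h] at h1
  exact Nat.add_right_cancel h1

omit [Fintype ι] in
theorem vis_inv_pow (σ : Equiv.Perm ι) {i : ι} {k : ℕ} (h : (σ ^ k) i = i) (j : ℕ) (x : ι) :
    vis σ i k ((σ ^ j) x) = vis σ i k x := by
  induction j with
  | zero => rfl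
  | succ n ih => rw [pow_succ', Equiv.Perm.mul_apply, vis_inv σ h, ih]

omit [Fintype ι] [DecidableEq ι] in
theorem inv_pow {σ : Equiv.Perm ι} {m : ι → ℕ} (h : ∀ i, m (σ i) = m i) (j : ℕ) (x : ι) :
    m ((σ ^ j) x) = m x := by
  induction j with
  | zero => rfl
  | succ n ih => rw [pow_succ', Equiv.Perm.mul_apply, h, ih]

omit [Fintype ι] in
theorem vis_le_iff (σ : Equiv.Perm ι) {i : ι} {k : ℕ} (h : (σ ^ k) i = i) {m : ι → ℕ}
    (hm : ∀ i, m (σ i) = m i) : (∀ x, vis σ i k x ≤ m x) ↔ vis σ i k i ≤ m i := by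
  refine ⟨fun h' => h' i, fun h' x => ?_⟩
  by_cases hx : ∃ j ∈ range k, (σ ^ j) i = x
  · obtain ⟨j, _, rfl⟩ := hx
    rw [vis_inv_pow σ h, inv_pow hm]
    exact h'
  · have : vis σ i k x = 0 := by
      unfold vis
      refine sum_eq_zero fun j hj => ?_
      rw [if_neg]
      intro h3
      exact hx ⟨j, hj, h3⟩
    rw [this]
    exact Nat.zero_le _

omit [Fintype ι] [DecidableEq ι] in
theorem pow_fix_iff (σ : Equiv.Perm ι) (i : ι) (k : ℕ) :
    (σ ^ k) i = i ↔ Function.minimalPeriod σ i ∣ k := by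
  rw [← Function.isPeriodicPt_iff_minimalPeriod_dvd, Function.IsPeriodicPt,
    Function.IsFixedPt, Equiv.Perm.iterate_eq_pow]

omit [DecidableEq ι] in
theorem period_pos (σ : Equiv.Perm ι) (i : ι) : 0 < Function.minimalPeriod σ i := by
  have h : (σ ^ orderOf σ) i = i := by rw [pow_orderOf_eq_one]; rfl
  exact Nat.pos_of_dvd_of_pos ((pow_fix_iff σ i _).1 h) (orderOf_pos σ)

theorem vis_self (σ : Equiv.Perm ι) (i : ι) (a : ℕ) :
    vis σ i (a * Function.minimalPeriod σ i) i = a := by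
  induction a with
  | zero => simp [vis]
  | succ a ih =>
    have hp := period_pos σ i
    unfold vis at ih ⊢
    rw [Nat.succ_mul, sum_range_add, ih]
    congr 1
    rw [sum_eq_single 0]
    · rw [if_pos]
      rw [add_zero, pow_fix_iff]
      exact Dvd.intro_left a rfl
    · intro b hb hb0
      rw [if_neg]
      rw [pow_fix_iff, Nat.dvd_add_right (Dvd.intro_left a rfl)]
      exact Nat.not_dvd_of_pos_of_lt (Nat.pos_of_ne_zero hb0) (mem_range.1 hb)
    · intro h0
      exact absurd (mem_range.2 hp) h0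

theorem card_turns (σ : Equiv.Perm ι) {q : ℕ} {m : ι → ℕ} (hm : m ∈ invEx σ q) (i : ι) :
    #((Icc 1 q).filter fun k => (σ ^ k) i = i ∧ ∀ x, vis σ i k x ≤ m x) = m i := by
  rw [mem_invEx] at hm
  have hp := period_pos σ i
  have e : (Icc 1 q).filter (fun k => (σ ^ k) i = i ∧ ∀ x, vis σ i k x ≤ m x) =
      (Icc 1 (m i)).image fun a => a * Function.minimalPeriod σ i := by
    ext k
    rw [mem_filter, mem_image, mem_Icc]
    constructor
    · rintro ⟨⟨h1, h2⟩, h3, h4⟩
      obtain ⟨a, ha⟩ := (pow_fix_iff σ i k).1 h3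
      have hk : k = a * Function.minimalPeriod σ i := by rw [ha, mul_comm]
      refine ⟨a, ?_, hk.symm⟩
      rw [mem_Icc]
      refine ⟨?_, ?_⟩
      · rcases Nat.eq_zero_or_pos a with h | h
        · subst h
          omega
        · exact h
      · have := h4 i
        rw [hk, vis_self] at this
        exact this
    · rintro ⟨a, ha, rfl⟩
      rw [mem_Icc] at ha
      have h3 : (σ ^ (a * Function.minimalPeriod σ i)) i = i :=
        (pow_fix_iff σ i _).2 (Dvd.intro_left a rfl)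
      have h4 : ∀ x, vis σ i (a * Function.minimalPeriod σ i) x ≤ m x := by
        rw [vis_le_iff σ h3 hm.2, vis_self]
        exact ha.2
      refine ⟨⟨Nat.mul_pos ha.1 hp, ?_⟩, h3, h4⟩
      rw [← sum_vis σ i (a * Function.minimalPeriod σ i), ← hm.1]
      exact sum_le_sum fun x _ => h4 x
  rw [e, card_image_of_injective, Nat.card_Icc, Nat.add_sub_cancel]
  intro a b hab
  exact Nat.eq_of_mul_eq_mul_right hp hab

theorem shift_sum (σ : Equiv.Perm ι) (η : ι → ℤˣ) {q k : ℕ} (hk : k ≤ q) {i : ι}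
    (h : (σ ^ k) i = i) :
    ∑ m ∈ (invEx σ q).filter (fun m => ∀ x, vis σ i k x ≤ m x), wt η m =
      wt η (vis σ i k) * symS σ η (q - k) := by
  unfold symS
  rw [mul_sum]
  refine sum_bij' (fun m _ => fun x => m x - vis σ i k x) (fun m _ => fun x => m x + vis σ i k x)
    ?_ ?_ ?_ ?_ ?_
  · intro m hm
    rw [mem_filter, mem_invEx] at hm
    rw [mem_invEx]
    refine ⟨?_, ?_⟩
    · have h1 : ∑ x, (m x - vis σ i k x) + ∑ x, vis σ i k x = q := by
        rw [← sum_add_distrib, ← hm.1.1]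
        refine sum_congr rfl fun x _ => ?_
        exact Nat.sub_add_cancel (hm.2 x)
      rw [sum_vis] at h1
      omega
    · intro x
      rw [hm.1.2, vis_inv σ h]
  · intro m hm
    rw [mem_invEx] at hm
    rw [mem_filter, mem_invEx]
    refine ⟨⟨?_, ?_⟩, ?_⟩
    · rw [sum_add_distrib, sum_vis, hm.1]
      omega
    · intro x
      rw [hm.2, vis_inv σ h]
    · intro x
      exact Nat.le_add_left _ _
  · intro m hm
    rw [mem_filter] at hm
    funext x
    exact Nat.sub_add_cancel (hm.2 x)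
  · intro m _
    funext x
    exact Nat.add_sub_cancel (n := m x) (m := vis σ i k x)
  · intro m hm
    rw [mem_filter] at hm
    unfold wt
    rw [← prod_mul_distrib]
    refine prod_congr rfl fun x _ => ?_
    rw [← pow_add, Nat.add_sub_cancel' (hm.2 x)]

/-- Newton's identity. -/
theorem newton (σ : Equiv.Perm ι) (η : ι → ℤˣ) (q : ℕ) :
    (q : ℤ) * symS σ η q = ∑ k ∈ Icc 1 q, powS σ η k * symS σ η (q - k) := by
  have h1 : (q : ℤ) * symS σ η q = ∑ m ∈ invEx σ q, ∑ i, (m i : ℤ) * wt η m := by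
    unfold symS
    rw [mul_sum]
    refine sum_congr rfl fun m hm => ?_
    rw [← sum_mul]
    congr 1
    rw [mem_invEx] at hm
    rw [← hm.1]
    push_cast
    rfl
  have h2 : ∀ m ∈ invEx σ q, ∀ i : ι, (m i : ℤ) * wt η m =
      ∑ k ∈ Icc 1 q, if ((σ ^ k) i = i ∧ ∀ x, vis σ i k x ≤ m x) then wt η m else 0 := by
    intro m hm i
    rw [← sum_filter, sum_const, card_turns σ hm i, nsmul_eq_mul]
  rw [h1]
  rw [sum_congr rfl fun m hm => sum_congr rfl fun i _ => h2 m hm i]
  rw [sum_congr rfl fun m _ => sum_comm, sum_comm]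
  refine sum_congr rfl fun k hk => ?_
  rw [mem_Icc] at hk
  rw [sum_comm]
  unfold powS
  rw [sum_mul, sum_filter]
  refine sum_congr rfl fun i _ => ?_
  split_ifs with h
  · rw [← wt_vis, ← shift_sum σ η hk.2 h, sum_filter]
    refine sum_congr rfl fun m _ => ?_
    simp only [h, true_and]
  · refine sum_eq_zero fun m _ => ?_
    rw [if_neg]
    exact fun h' => h h'.1

theorem symS_zero (σ : ι → ι) (η : ι → ℤˣ) : symS σ η 0 = 1 := by
  have : invEx σ 0 = {fun _ => 0} := by
    ext m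
    rw [mem_invEx, mem_singleton]
    constructor
    · rintro ⟨h, _⟩
      funext x
      have := (sum_eq_zero_iff.1 h) x (mem_univ x)
      exact this
    · rintro rfl
      simp
  rw [symS, this, sum_singleton, wt]
  simp

end Pool.Agent.PGZ2
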