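import Pool.Agent.PGZ2.Closure
import Pool.Agent.PGZ2.Newton
import Pool.Agent.PGZ2.Key

/-! # PGZ2: symmetric powers of signed permutation characters -/

set_option autoImplicit false

noncomputable section

namespace Pool.Agent.PGZ2

open Module Finset

open Pool.Agent.PGZ (act act_apply)

variable {G : Type} [Group G]

/-- The action on exponents. -/
@[reducible]
def expAct (ι : Type) [Fintype ι] [DecidableEq ι] [MulAction G ι] (q : ℕ) :
    MulAction G {m : ι → ℕ // m ∈ piAntidiag (univ : Finset ι) q} where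
  smul g m := ⟨fun i => m.1 (g⁻¹ • i), by
    have h := mem_piAntidiag.1 m.2
    rw [mem_piAntidiag]
    refine ⟨?_, fun i _ => mem_univ i⟩
    exact (Fintype.sum_equiv (MulAction.toPerm g⁻¹) _ _ fun i => rfl).trans h.1⟩
  one_smul m := Subtype.ext (funext fun i => congrArg m.1 (by rw [inv_one, one_smul]))
  mul_smul g h m := Subtype.ext (funext fun i => congrArg m.1 (by rw [mul_inv_rev, mul_smul]))

theorem SC.symS {ι : Type} [Fintype ι] [DecidableEq ι] [MulAction G ι] (ε : G → ι → ℤˣ)
    (h : ∀ g h i, ε (g * h) i = ε g (h • i) * ε h i) (q : ℕ) :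
    SC G (fun g => symS (fun i => g • i) (ε g) q) := by
  let _ := expAct (G := G) ι q
  refine ⟨{m : ι → ℕ // m ∈ piAntidiag (univ : Finset ι) q}, inferInstance, inferInstance,
    inferInstance, fun g m => ∏ i, ε g i ^ m.1 i, ?_, ?_⟩
  · intro a b m
    have e : (∏ i, ε a i ^ (b • m).1 i) = ∏ i, ε a (b • i) ^ m.1 i := by
      refine (Fintype.prod_equiv (MulAction.toPerm b) _ _ fun i => ?_).symm
      change ε a (b • i) ^ m.1 i = ε a (b • i) ^ m.1 (b⁻¹ • b • i)
      rw [inv_smul_smul]
    change (∏ i, ε (a * b) i ^ m.1 i) = (∏ i, ε a i ^ (b • m).1 i) * ∏ i, ε b i ^ m.1 i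
    rw [e, ← prod_mul_distrib]
    refine prod_congr rfl fun i _ => ?_
    rw [h, mul_pow]
  · intro g
    have e : ∀ m : {m : ι → ℕ // m ∈ piAntidiag (univ : Finset ι) q},
        g • m = m ↔ ∀ i, m.1 (g • i) = m.1 i := by
      intro m
      constructor
      · intro h1 i
        have h2 := congrFun (congrArg Subtype.val h1) (g • i)
        change m.1 (g⁻¹ • g • i) = m.1 (g • i) at h2
        rw [inv_smul_smul] at h2
        exact h2.symm
      · intro h1
        refine Subtype.ext (funext fun i => ?_)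
        change m.1 (g⁻¹ • i) = m.1 i
        rw [← h1, smul_inv_smul]
    change ∑ m ∈ invEx (fun i => g • i) q, wt (ε g) m = _
    unfold invEx
    rw [sum_filter, sum_filter, ← sum_coe_sort]
    refine sum_congr rfl fun m _ => ?_
    simp only [e]
    split_ifs with h1
    · unfold wt
      push_cast
      rfl
    · rfl

theorem cocycle_one {ι : Type} [MulAction G ι] (ε : G → ι → ℤˣ)
    (h : ∀ g h i, ε (g * h) i = ε g (h • i) * ε h i) (i : ι) : ε 1 i = 1 := by
  have h1 := h 1 1 i
  rw [one_mul, one_smul] at h1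
  exact (left_eq_mul₀ (Units.ne_zero _) |>.1 (congrArg Units.val h1) |> fun h2 => Units.ext h2)

theorem powS_eq {ι : Type} [Fintype ι] [DecidableEq ι] [MulAction G ι] (ε : G → ι → ℤˣ)
    (h : ∀ g h i, ε (g * h) i = ε g (h • i) * ε h i) (g : G) (k : ℕ) :
    powS (MulAction.toPerm g) (ε g) k =
      ∑ i ∈ univ.filter (fun i : ι => g ^ k • i = i), ((ε (g ^ k) i : ℤˣ) : ℤ) := by
  have h1 : ∀ (k : ℕ) (i : ι), ((MulAction.toPerm g : Equiv.Perm ι) ^ k) i = g ^ k • i := by
    intro k i
    induction k with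
    | zero => simp
    | succ n ih => rw [pow_succ', Equiv.Perm.mul_apply, ih, pow_succ', mul_smul]; rfl
  have h2 : ∀ (k : ℕ) (i : ι), ε (g ^ k) i = ∏ j ∈ range k, ε g (g ^ j • i) := by
    intro k i
    induction k with
    | zero => rw [pow_zero, cocycle_one ε h, prod_range_zero]
    | succ n ih => rw [pow_succ', h, ih, prod_range_succ, mul_comm]
  unfold powS
  simp only [h1, h2]
  refine sum_congr rfl fun i _ => ?_
  push_cast
  rfl

/-- If the trace on `Λ` is a signed permutation character, so is the trace on its symmetric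
powers. -/
theorem SC.symTr [Finite G] {Λ : Type} [AddCommGroup Λ] [Module.Free ℤ Λ] [Module.Finite ℤ Λ]
    [DistribMulAction G Λ] (H : SC G (fun g => LinearMap.trace ℤ Λ (act Λ g))) (q : ℕ) :
    SC G (fun g => symTr (act Λ g) q) := by
  obtain ⟨ι, i1, i2, i3, ε, h1, h2⟩ := H
  refine SC.congr (SC.symS ε h1 q) fun g => ?_
  have hpow : ∀ n : ℕ, (act Λ g) ^ n = act Λ (g ^ n) := by
    intro n
    induction n with
    | zero =>
      ext x
      simp
    | succ n ih =>
      ext x
      rw [pow_succ', ih, Module.End.mul_apply, act_apply, act_apply, act_apply, smul_smul,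
        pow_succ']
  refine symTr_eq (act Λ g) (Nat.card G) Nat.card_pos ?_
    (fun q => PGZ2.symS (fun i => g • i) (ε g) q) (symS_zero _ _) ?_ q
  · rw [hpow, pow_card_eq_one']
    ext x
    simp
  · intro q
    have h3 := newton (MulAction.toPerm g : Equiv.Perm ι) (ε g) q
    have h4 : ∀ k, powS (MulAction.toPerm g : Equiv.Perm ι) (ε g) k =
        LinearMap.trace ℤ Λ (act Λ g ^ k) := by
      intro k
      rw [powS_eq ε h1, hpow]
      exact (h2 (g ^ k)).symm
    simp only [h4] at h3
    exact h3

end Pool.Agent.PGZ2
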