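import Pool.Agent.PGZ2.Closure
import Pool.Agent.PGZ2.Sym

/-! # PGZ2: signed permutation characters and `IsSgn` -/

set_option autoImplicit false

noncomputable section

namespace Pool.Agent.PGZ2

open Module Finset

open Pool.Agent.PGZ (act act_apply IsSgn)

variable {G : Type} [Group G] {Λ : Type} [AddCommGroup Λ] [DistribMulAction G Λ]

/-- A signed permutation character comes from a free involution. -/
theorem SC.isSgn (H : SC G (fun g => LinearMap.trace ℤ Λ (act Λ g))) :
    ∃ (S : Type) (_ : MulAction G S) (τ : S → S) (c : ℕ), IsSgn G Λ S τ c := by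
  obtain ⟨ι, i1, i2, i3, ε, h1, h2⟩ := H
  let _ : MulAction G (ι × ℤˣ) :=
    { smul := fun g x => (g • x.1, ε g x.1 * x.2)
      one_smul := fun x => Prod.ext (one_smul G x.1)
        (by change ε 1 x.1 * x.2 = x.2; rw [cocycle_one ε h1, one_mul])
      mul_smul := fun a b x => Prod.ext (mul_smul a b x.1)
        (by change ε (a * b) x.1 * x.2 = ε a (b • x.1) * (ε b x.1 * x.2); rw [h1, mul_assoc]) }
  have hs : ∀ (g : G) (x : ι × ℤˣ), g • x = (g • x.1, ε g x.1 * x.2) := fun g x => rfl
  refine ⟨ι × ℤˣ, inferInstance, fun x => (x.1, -x.2), 0, ⟨inferInstance, ?_, ?_, ?_, ?_⟩⟩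
  · intro s h
    have := congrArg Prod.snd h
    change -s.2 = s.2 at this
    rcases Int.units_eq_one_or s.2 with h1 | h1
    · rw [h1] at this
      exact absurd this (by decide)
    · rw [h1] at this
      exact absurd this (by decide)
  · intro s
    simp
  · intro g s
    rw [hs, hs]
    simp
  · intro g
    have e := h2 g
    change LinearMap.trace ℤ Λ (act Λ g) = _ at e
    have h3 : (Nat.card {s : ι × ℤˣ // g • s = s} : ℤ) =
        ∑ i : ι, ∑ u : ℤˣ, if g • i = i ∧ ε g i = 1 then 1 else 0 := by
      rw [Nat.card_eq_fintype_card, Fintype.card_subtype, Finset.card_filter]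
      push_cast
      rw [Fintype.sum_prod_type]
      refine sum_congr rfl fun i _ => sum_congr rfl fun u _ => ?_
      simp only [hs, Prod.ext_iff, mul_eq_right]
    have h4 : (Nat.card {s : ι × ℤˣ // g • s = (s.1, -s.2)} : ℤ) =
        ∑ i : ι, ∑ u : ℤˣ, if g • i = i ∧ ε g i = -1 then 1 else 0 := by
      rw [Nat.card_eq_fintype_card, Fintype.card_subtype, Finset.card_filter]
      push_cast
      rw [Fintype.sum_prod_type]
      refine sum_congr rfl fun i _ => sum_congr rfl fun u _ => ?_
      have e5 : (ε g i * u = -u) ↔ ε g i = -1 := by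
        rw [← neg_one_mul u, mul_right_cancel_iff]
      simp only [hs, Prod.ext_iff, e5]
    change 2 * LinearMap.trace ℤ Λ (act Λ g) = 2 * ((0 : ℕ) : ℤ) +
      (Nat.card {s : ι × ℤˣ // g • s = s} : ℤ) - (Nat.card {s : ι × ℤˣ // g • s = (s.1, -s.2)} : ℤ)
    rw [e, h3, h4, sum_filter, mul_sum, Nat.cast_zero, mul_zero, zero_add, ← sum_sub_distrib]
    refine sum_congr rfl fun i _ => ?_
    rw [← sum_sub_distrib, sum_const, card_univ]
    have h5 : Fintype.card ℤˣ = 2 := by rfl
    rw [h5]
    by_cases h6 : g • i = i
    · rcases Int.units_eq_one_or (ε g i) with h7 | h7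
      · simp [h6, h7]
      · simp [h6, h7]
    · simp [h6]

/-- Conversely, a free involution gives a signed permutation character. -/
theorem SC.of_isSgn {S : Type} [MulAction G S] {τ : S → S} {c : ℕ} (H : IsSgn G Λ S τ c) :
    SC G (fun g => LinearMap.trace ℤ Λ (act Λ g)) := by
  classical
  have := H.fin
  have : Fintype S := Fintype.ofFinite S
  let st : Setoid S :=
    { r := fun a b => b = a ∨ b = τ a
      iseqv :=
        { refl := fun a => Or.inl rfl
          symm := by
            rintro a b (h | h)
            · exact Or.inl h.symm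
            · exact Or.inr (by rw [h, H.invol])
          trans := by
            rintro a b d (h | h) (h' | h')
            · exact Or.inl (by rw [h', h])
            · exact Or.inr (by rw [h', h])
            · exact Or.inr (by rw [h', h])
            · exact Or.inl (by rw [h', h, H.invol]) } }
  have hst : ∀ a b : S, (Quotient.mk st a = Quotient.mk st b) ↔ (b = a ∨ b = τ a) := fun a b =>
    Quotient.eq (r := st)
  let _ : MulAction G (Quotient st) :=
    { smul := fun g => Quotient.map (fun x => g • x) (by
        rintro a b (h | h)
        · exact Or.inl (by rw [h])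
        · exact Or.inr (by rw [h, H.comm]))
      one_smul := by
        rintro ⟨x⟩
        exact congrArg (Quotient.mk st) (one_smul G x)
      mul_smul := by
        rintro a b ⟨x⟩
        exact congrArg (Quotient.mk st) (mul_smul a b x) }
  have hmk : ∀ (g : G) (x : S), g • Quotient.mk st x = Quotient.mk st (g • x) := fun g x => rfl
  have hout : ∀ (g : G) (i : Quotient st), g • i.out = (g • i).out ∨ g • i.out = τ (g • i).out := by
    intro g i
    rw [← hst, Quotient.out_eq, ← hmk, Quotient.out_eq]
  let ε : G → Quotient st → ℤˣ := fun g i => if g • i.out = (g • i).out then 1 else -1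
  have hε : ∀ g i, ε g i = 1 ↔ g • i.out = (g • i).out := by
    intro g i
    simp only [ε]
    split_ifs with h
    · simp [h]
    · simp only [h, iff_false]
      decide
  have hε' : ∀ g i, ε g i = -1 ↔ g • i.out = τ (g • i).out := by
    intro g i
    simp only [ε]
    split_ifs with h
    · rw [h]
      constructor
      · intro h'
        exact absurd h' (by decide)
      · intro h'
        exact absurd h'.symm (H.free _)
    · simp only [true_iff]
      exact (hout g i).resolve_left h
  have hc : ∀ a b i, ε (a * b) i = ε a (b • i) * ε b i := by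
    intro a b i
    rcases Int.units_eq_one_or (ε b i) with hb | hb
    · rw [hb, mul_one]
      rcases Int.units_eq_one_or (ε a (b • i)) with ha | ha
      · rw [ha, hε, mul_smul, (hε b i).1 hb, (hε a (b • i)).1 ha, mul_smul]
      · rw [ha, hε', mul_smul, (hε b i).1 hb, (hε' a (b • i)).1 ha, mul_smul]
    · rw [hb]
      rcases Int.units_eq_one_or (ε a (b • i)) with ha | ha
      · rw [ha, one_mul, hε', mul_smul, (hε' b i).1 hb, H.comm, (hε a (b • i)).1 ha, mul_smul]
      · rw [ha, neg_mul_neg, one_mul, hε, mul_smul, (hε' b i).1 hb, H.comm,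
          (hε' a (b • i)).1 ha, mul_smul, H.invol]
  have hSC : SC G (fun g => ∑ i ∈ univ.filter (fun i : Quotient st => g • i = i),
      ((ε g i : ℤˣ) : ℤ)) :=
    ⟨Quotient st, inferInstance, inferInstance, inferInstance, ε, hc, fun g => rfl⟩
  refine ((SC.natCast c).add hSC).congr fun g => ?_
  have htr := H.trace g
  let F : S → ℤ := fun s => (if g • s = s then 1 else 0) - (if g • s = τ s then 1 else 0)
  have hF : (Nat.card {s : S // g • s = s} : ℤ) - (Nat.card {s : S // g • s = τ s} : ℤ) =
      ∑ s, F s := by
    rw [Nat.card_eq_fintype_card, Nat.card_eq_fintype_card, Fintype.card_subtype,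
      Fintype.card_subtype, Finset.card_filter, Finset.card_filter]
    simp only [F]
    rw [sum_sub_distrib]
    push_cast
    rfl
  have hτinj : Function.Injective τ := fun a b h => by rw [← H.invol a, h, H.invol]
  have hFτ : ∀ s, F (τ s) = F s := by
    intro s
    simp only [F, H.comm, H.invol, hτinj.eq_iff]
    have e1 : (τ (g • s) = s) ↔ (g • s = τ s) := by
      constructor
      · intro h
        have h' := congrArg τ h
        rwa [H.invol] at h'
      · intro h
        rw [h, H.invol]
    simp only [e1]
  have hFi : ∀ i : Quotient st, F i.out = if g • i = i then ((ε g i : ℤˣ) : ℤ) else 0 := by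
    intro i
    split_ifs with h
    · rcases Int.units_eq_one_or (ε g i) with ha | ha
      · have h1 := (hε g i).1 ha
        rw [h] at h1
        simp only [F, h1, ha]
        rw [if_pos trivial, if_neg (H.free _).symm]
        rfl
      · have h1 := (hε' g i).1 ha
        rw [h] at h1
        simp only [F, h1, ha]
        rw [if_pos trivial, if_neg (H.free _)]
        rfl
    · have h1 : g • i.out ≠ i.out := by
        intro h1
        apply h
        conv_lhs => rw [← Quotient.out_eq i]
        rw [hmk, h1, Quotient.out_eq]
      have h2 : g • i.out ≠ τ i.out := by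
        intro h1
        apply h
        conv_lhs => rw [← Quotient.out_eq i]
        rw [hmk, h1]
        conv_rhs => rw [← Quotient.out_eq i]
        rw [hst]
        exact Or.inr (H.invol _).symm
      simp only [F]
      rw [if_neg h1, if_neg h2, sub_zero]
  have hsum : ∑ s, F s = ∑ i : Quotient st, (F i.out + F (τ i.out)) := by
    have hbij : Function.Bijective (fun x : Quotient st × Bool =>
        if x.2 then x.1.out else τ x.1.out) := by
      constructor
      · rintro ⟨i, a⟩ ⟨j, b⟩ h
        have hi : i = j := by
          have h1 : Quotient.mk st (if a then i.out else τ i.out) = i := by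
            conv_rhs => rw [← Quotient.out_eq i]
            rw [hst]
            cases a
            · exact Or.inr (H.invol _).symm
            · exact Or.inl rfl
          have h2 : Quotient.mk st (if b then j.out else τ j.out) = j := by
            conv_rhs => rw [← Quotient.out_eq j]
            rw [hst]
            cases b
            · exact Or.inr (H.invol _).symm
            · exact Or.inl rfl
          rw [← h1, ← h2]
          exact congrArg _ h
        subst hi
        cases a <;> cases b
        · rfl
        · exact absurd h (H.free _)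
        · exact absurd h.symm (H.free _)
        · rfl
      · intro s
        rcases (hst (Quotient.mk st s).out s).1 (Quotient.out_eq _) with h | h
        · exact ⟨(Quotient.mk st s, true), h.symm⟩
        · exact ⟨(Quotient.mk st s, false), h.symm⟩
    rw [← hbij.sum_comp F, Fintype.sum_prod_type]
    refine sum_congr rfl fun i _ => ?_
    rw [Fintype.sum_bool]
    simp
  change LinearMap.trace ℤ Λ (act Λ g) = (c : ℤ) +
    ∑ i ∈ univ.filter (fun i : Quotient st => g • i = i), ((ε g i : ℤˣ) : ℤ)
  have h6 : ∑ s, F s = 2 * ∑ i ∈ univ.filter (fun i : Quotient st => g • i = i),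
      ((ε g i : ℤˣ) : ℤ) := by
    rw [hsum, sum_filter, mul_sum]
    refine sum_congr rfl fun i _ => ?_
    rw [hFτ, hFi]
    ring
  have h7 : 2 * LinearMap.trace ℤ Λ (act Λ g) = 2 * ((c : ℤ) +
      ∑ i ∈ univ.filter (fun i : Quotient st => g • i = i), ((ε g i : ℤˣ) : ℤ)) := by
    rw [htr, mul_add, ← h6, ← hF]
    ring
  exact mul_left_cancel₀ two_ne_zero h7

end Pool.Agent.PGZ2
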