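import Pool.Agent.PGZ2.Defs

/-! # PGZ2: functions equivariant along the cycles of a permutation -/

set_option autoImplicit false

noncomputable section

namespace Pool.Agent.PGZ2

open Finset

variable {G : Type} [Group G] {X : Type} [MulAction G X]

/-- The iteration of the transition maps `T` along the cycle of `x`. -/
def iter {I : Type} (g : G) (T : X → I → I) (x : X) (k : ℕ) (i : I) : I :=
  Nat.rec i (fun k r => T (g ^ k • x) r) k

theorem iter_zero {I : Type} (g : G) (T : X → I → I) (x : X) (i : I) : iter g T x 0 i = i := rfl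

theorem iter_succ {I : Type} (g : G) (T : X → I → I) (x : X) (k : ℕ) (i : I) :
    iter g T x (k + 1) i = T (g ^ k • x) (iter g T x k i) := rfl

theorem per_dvd (g : G) (x : X) (k : ℕ) : g ^ k • x = x ↔ per g x ∣ k :=
  MulAction.pow_smul_eq_iff_minimalPeriod_dvd

theorem per_pos [Finite G] (g : G) (x : X) : 0 < per g x := by
  have h1 : g ^ Nat.card G • x = x := by rw [pow_card_eq_one', one_smul]
  exact Nat.pos_of_dvd_of_pos ((per_dvd g x _).1 h1) Nat.card_pos

/-- A point as a cycle with a position in it. -/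
def cycMap (g : G) (X : Type) [MulAction G X] (q : (ω : Cyc g X) × Fin (per g ω.out)) : X :=
  g ^ (q.2 : ℕ) • q.1.out

theorem cyc_mk (g : G) (k : ℕ) (x : X) :
    (Quotient.mk _ (g ^ k • x) : Cyc g X) = Quotient.mk _ x := by
  rw [Quotient.eq]
  exact ⟨⟨g ^ k, Subgroup.npow_mem_zpowers g k⟩, rfl⟩

theorem cycMap_bij [Finite G] (g : G) : Function.Bijective (cycMap g X) := by
  constructor
  · rintro ⟨ω, k⟩ ⟨ω', k'⟩ h
    have h0 : g ^ (k : ℕ) • ω.out = g ^ (k' : ℕ) • ω'.out := h
    have h1 : ω = ω' := by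
      have h2 := congrArg (fun y => (Quotient.mk _ y : Cyc g X)) h0
      simp only [cyc_mk] at h2
      rwa [Quotient.out_eq, Quotient.out_eq] at h2
    subst h1
    have h3 : (k : ℕ) = k' := by
      have key : ∀ a b : ℕ, a ≤ b → b < per g ω.out → g ^ a • ω.out = g ^ b • ω.out → a = b := by
        intro a b hab hb he
        obtain ⟨c, rfl⟩ := Nat.exists_eq_add_of_le hab
        have h4 : g ^ c • ω.out = ω.out := by
          have h5 : g ^ a • ω.out = g ^ a • g ^ c • ω.out := by
            rw [he, pow_add, mul_smul]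
          exact (smul_left_cancel _ h5).symm
        have h6 := (per_dvd g ω.out c).1 h4
        rcases Nat.eq_zero_or_pos c with h7 | h7
        · omega
        · have := Nat.le_of_dvd h7 h6
          omega
      rcases le_total (k : ℕ) k' with h4 | h4
      · exact key _ _ h4 k'.2 h0
      · exact (key _ _ h4 k.2 h0.symm).symm
    have h4 : k = k' := Fin.ext h3
    rw [h4]
  · intro x
    have h1 : (Quotient.mk _ (Quotient.mk _ x : Cyc g X).out : Cyc g X) = Quotient.mk _ x :=
      Quotient.out_eq _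
    rw [Quotient.eq] at h1
    obtain ⟨⟨u, hu⟩, h2⟩ := MulAction.mem_orbit_symm.1 h1
    obtain ⟨z, rfl⟩ := Subgroup.mem_zpowers_iff.1 hu
    have h3 : g ^ z • (Quotient.mk _ x : Cyc g X).out = x := h2
    set y := (Quotient.mk _ x : Cyc g X).out with hy
    have hp := per_pos g y
    have h4 : g ^ (z % (per g y : ℤ)) • y = g ^ z • y :=
      MulAction.zpow_smul_mod_minimalPeriod g y z
    have h5 : 0 ≤ z % (per g y : ℤ) := Int.emod_nonneg _ (by exact_mod_cast hp.ne')
    have h6 : z % (per g y : ℤ) < per g y := Int.emod_lt_of_pos _ (by exact_mod_cast hp)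
    obtain ⟨m, hm⟩ := Int.eq_ofNat_of_zero_le h5
    refine ⟨⟨Quotient.mk _ x, ⟨m, ?_⟩⟩, ?_⟩
    · rw [← hy]
      rw [hm] at h6
      exact_mod_cast h6
    · change g ^ m • (Quotient.mk _ x : Cyc g X).out = x
      rw [← hy, ← h3, ← h4, hm, zpow_natCast]

/-- The sum over all functions equivariant along the cycles of `g` is a product over the cycles. -/
theorem sum_cycles [Finite G] [Fintype X] [DecidableEq X] {I : Type} [Fintype I] [DecidableEq I]
    {R : Type} [CommRing R] (g : G) [Fintype (Cyc g X)] (T : X → I → I) (c : X → I → R) :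
    ∑ s ∈ univ.filter (fun s : X → I => ∀ x, s (g • x) = T x (s x)), ∏ x, c x (s x) =
      ∏ ω : Cyc g X, ∑ i ∈ univ.filter (fun i => iter g T ω.out (per g ω.out) i = i),
        ∏ k ∈ range (per g ω.out), c (g ^ k • ω.out) (iter g T ω.out k i) := by
  classical
  let E : ((ω : Cyc g X) × Fin (per g ω.out)) ≃ X := Equiv.ofBijective _ (cycMap_bij g)
  have hE : ∀ q, E q = g ^ (q.2 : ℕ) • q.1.out := fun q => rfl
  have hprod : ∀ f : X → R, ∏ x, f x = ∏ ω : Cyc g X, ∏ k ∈ range (per g ω.out),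
      f (g ^ k • ω.out) := by
    intro f
    rw [← E.prod_comp, Fintype.prod_sigma]
    refine prod_congr rfl fun ω _ => ?_
    rw [← Fin.prod_univ_eq_prod_range (fun k => f (g ^ k • ω.out))]
    rfl
  rw [prod_univ_sum]
  have hs : ∀ s : X → I, (∀ x, s (g • x) = T x (s x)) → ∀ (x : X) (k : ℕ),
      s (g ^ k • x) = iter g T x k (s x) := by
    intro s h x k
    induction k with
    | zero => rw [pow_zero, one_smul, iter_zero]
    | succ n ih => rw [pow_succ', mul_smul, h, ih, iter_succ]
  let J : (Cyc g X → I) → X → I := fun p x =>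
    iter g T (E.symm x).1.out ((E.symm x).2 : ℕ) (p (E.symm x).1)
  have hJ : ∀ (p : Cyc g X → I) (ω : Cyc g X) (k : ℕ), k < per g ω.out →
      J p (g ^ k • ω.out) = iter g T ω.out k (p ω) := by
    intro p ω k hk
    have h1 : g ^ k • ω.out = E ⟨ω, ⟨k, hk⟩⟩ := rfl
    simp only [J]
    rw [h1, E.symm_apply_apply]
  have hJ0 : ∀ (p : Cyc g X → I) (ω : Cyc g X), J p ω.out = p ω := by
    intro p ω
    have h1 := hJ p ω 0 (per_pos g _)
    rwa [pow_zero, one_smul, iter_zero] at h1
  refine sum_bij' (fun s _ => fun ω => s ω.out) (fun p _ => J p) ?_ ?_ ?_ ?_ ?_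
  · intro s h
    rw [mem_filter] at h
    rw [Fintype.mem_piFinset]
    intro ω
    rw [mem_filter]
    refine ⟨mem_univ _, ?_⟩
    rw [← hs s h.2, (per_dvd g ω.out _).2 dvd_rfl]
  · intro p hp
    rw [Fintype.mem_piFinset] at hp
    rw [mem_filter]
    refine ⟨mem_univ _, fun x => ?_⟩
    obtain ⟨⟨ω, ⟨k, hk⟩⟩, rfl⟩ := E.surjective x
    have h1 : E ⟨ω, ⟨k, hk⟩⟩ = g ^ k • ω.out := rfl
    rw [h1, hJ p ω k hk, ← iter_succ g T ω.out k (p ω), ← mul_smul, ← pow_succ']
    rcases Nat.lt_or_ge (k + 1) (per g ω.out) with h2 | h2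
    · exact hJ p ω (k + 1) h2
    · have h3 : k + 1 = per g ω.out := le_antisymm hk h2
      have h4 := (mem_filter.1 (hp ω)).2
      rw [h3, h4, (per_dvd g ω.out _).2 dvd_rfl, hJ0]
  · intro s h
    rw [mem_filter] at h
    funext x
    obtain ⟨⟨ω, ⟨k, hk⟩⟩, rfl⟩ := E.surjective x
    have h1 : E ⟨ω, ⟨k, hk⟩⟩ = g ^ k • ω.out := rfl
    rw [h1]
    exact (hJ (fun ω => s ω.out) ω k hk).trans (hs s h.2 ω.out k).symm
  · intro p _
    funext ω
    exact hJ0 p ω
  · intro s h
    rw [mem_filter] at h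
    rw [hprod]
    refine prod_congr rfl fun ω _ => prod_congr rfl fun k _ => ?_
    rw [hs s h.2]

end Pool.Agent.PGZ2
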