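import Pool.Agent.PGZ2.Closure

/-! # PGZ2: induction of signed permutation characters -/

set_option autoImplicit false

noncomputable section

namespace Pool.Agent.PGZ2

open Finset

variable {G : Type} [Group G]

theorem Ind_mem (H : Subgroup G) (g : G) (x : G ⧸ H) :
    (g • x).out⁻¹ * g * x.out ∈ H := by
  have h1 : (QuotientGroup.mk (g • x).out : G ⧸ H) = QuotientGroup.mk (g * x.out) := by
    rw [QuotientGroup.out_eq']
    conv_lhs => rw [← QuotientGroup.out_eq' x]
    rfl
  have h2 := QuotientGroup.eq.1 h1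
  rwa [← mul_assoc] at h2

/-- The cocycle of `G ⧸ H`. -/
def hh (H : Subgroup G) (g : G) (x : G ⧸ H) : H := ⟨(g • x).out⁻¹ * g * x.out, Ind_mem H g x⟩

theorem hh_mul (H : Subgroup G) (a b : G) (x : G ⧸ H) :
    hh H (a * b) x = hh H a (b • x) * hh H b x := by
  apply Subtype.ext
  change ((a * b) • x).out⁻¹ * (a * b) * x.out =
    ((a • b • x).out⁻¹ * a * (b • x).out) * ((b • x).out⁻¹ * b * x.out)
  rw [mul_smul]
  group

theorem hh_one (H : Subgroup G) (x : G ⧸ H) : hh H 1 x = 1 := by
  apply Subtype.ext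
  change ((1 : G) • x).out⁻¹ * 1 * x.out = 1
  rw [one_smul]
  group

theorem SC.res (H : Subgroup G) {f : G → ℤ} (hf : SC G f) : SC H (fun h => f h) := by
  obtain ⟨ι, i1, i2, i3, ε, h1, h2⟩ := hf
  exact ⟨ι, i1, i2, inferInstance, fun h => ε h, fun a b i => h1 a b i, fun g => h2 g⟩

theorem SC.ind [Finite G] (H : Subgroup G) {f : H → ℤ} (hf : SC H f) : SC G (indCh H f) := by
  classical
  obtain ⟨ι, i1, i2, i3, ε, h1, h2⟩ := hf
  have : Fintype (G ⧸ H) := Fintype.ofFinite _
  let _ : MulAction G ((G ⧸ H) × ι) :=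
    { smul := fun g x => (g • x.1, hh H g x.1 • x.2)
      one_smul := fun x => Prod.ext (one_smul G x.1)
        (by change hh H 1 x.1 • x.2 = x.2; rw [hh_one, one_smul])
      mul_smul := fun a b x => Prod.ext (mul_smul a b x.1)
        (by
          change hh H (a * b) x.1 • x.2 = hh H a (b • x.1) • hh H b x.1 • x.2
          rw [hh_mul, mul_smul]) }
  refine ⟨(G ⧸ H) × ι, inferInstance, inferInstance, inferInstance,
    fun g x => ε (hh H g x.1) x.2, ?_, ?_⟩
  · intro a b x
    change ε (hh H (a * b) x.1) x.2 = ε (hh H a (b • x.1)) (hh H b x.1 • x.2) * ε (hh H b x.1) x.2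
    rw [hh_mul, h1]
  · intro g
    rw [sum_filter, Fintype.sum_prod_type, indCh, finsum_eq_sum_of_fintype]
    refine sum_congr rfl fun x _ => ?_
    have hs : ∀ i : ι, g • (x, i) = (g • x, hh H g x • i) := fun i => rfl
    by_cases hx : g • x = x
    · have h3 : x.out⁻¹ * g * x.out ∈ H := by
        have := Ind_mem H g x
        rwa [hx] at this
      have h4 : hh H g x = ⟨x.out⁻¹ * g * x.out, h3⟩ := by
        apply Subtype.ext
        change (g • x).out⁻¹ * g * x.out = x.out⁻¹ * g * x.out
        rw [hx]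
      rw [extend, dif_pos h3, ← h4, h2, sum_filter]
      refine sum_congr rfl fun i _ => ?_
      simp only [hs, Prod.ext_iff, hx, true_and]
    · have h3 : ¬ x.out⁻¹ * g * x.out ∈ H := by
        intro h3
        apply hx
        conv_lhs => rw [← QuotientGroup.out_eq' x]
        conv_rhs => rw [← QuotientGroup.out_eq' x]
        change (QuotientGroup.mk (g * x.out) : G ⧸ H) = QuotientGroup.mk x.out
        rw [eq_comm, QuotientGroup.eq, ← mul_assoc]
        exact h3
      rw [extend, dif_neg h3]
      symm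
      refine sum_eq_zero fun i _ => ?_
      rw [if_neg]
      intro h5
      exact hx (congrArg Prod.fst h5)

end Pool.Agent.PGZ2
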