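import Pool.Agent.PGZ2.Ind
import Pool.Agent.PGZ2.Cycle

/-! # PGZ2: tensor induction of signed permutation characters -/

set_option autoImplicit false

noncomputable section

namespace Pool.Agent.PGZ2

open Finset

/-- A finite family of signed permutation characters as one graded signed set. -/
theorem SC.family {H : Type} [Group H] (n : ℕ) (a : ℕ → H → ℤ) (ha : ∀ d, SC H (a d)) :
    ∃ (I : Type) (_ : Fintype I) (_ : DecidableEq I) (_ : MulAction H I) (ε : H → I → ℤˣ)
      (deg : I → ℕ), (∀ g h i, ε (g * h) i = ε g (h • i) * ε h i) ∧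
      (∀ (h : H) i, deg (h • i) = deg i) ∧
      ∀ (h : H) (d : ℕ), d ≤ n →
        a d h = ∑ i ∈ univ.filter (fun i => h • i = i ∧ deg i = d), ((ε h i : ℤˣ) : ℤ) := by
  classical
  choose ι iF iD iA ε h1 h2 using ha
  let _ : MulAction H ((d : Fin (n + 1)) × ι d) :=
    { smul := fun h x => ⟨x.1, h • x.2⟩
      one_smul := fun x => by
        rcases x with ⟨d, i⟩
        exact congrArg (Sigma.mk d) (one_smul H i)
      mul_smul := fun a b x => by
        rcases x with ⟨d, i⟩
        exact congrArg (Sigma.mk d) (mul_smul a b i) }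
  refine ⟨(d : Fin (n + 1)) × ι d, inferInstance, inferInstance, inferInstance,
    fun h x => ε x.1 h x.2, fun x => x.1, ?_, ?_, ?_⟩
  · intro a b x
    exact h1 x.1 a b x.2
  · intro h x
    rfl
  · intro h d hd
    rw [sum_filter, Fintype.sum_sigma, sum_eq_single (⟨d, by omega⟩ : Fin (n + 1))]
    · rw [h2 d h, sum_filter]
      refine sum_congr rfl fun i _ => ?_
      refine if_congr ?_ rfl rfl
      constructor
      · intro h3
        exact ⟨congrArg (Sigma.mk _) h3, rfl⟩
      · rintro ⟨h3, _⟩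
        exact eq_of_heq (Sigma.mk.inj h3).2
    · intro b _ hb
      refine sum_eq_zero fun i _ => ?_
      rw [if_neg]
      rintro ⟨_, h3⟩
      exact hb (Fin.ext h3)
    · intro h3
      exact absurd (mem_univ _) h3

variable {G : Type} [Group G]

theorem iter_hh (H : Subgroup G) {I : Type} [MulAction H I] (g : G) (x : G ⧸ H) (k : ℕ) (i : I) :
    iter g (fun (x : G ⧸ H) (i : I) => hh H g x • i) x k i = hh H (g ^ k) x • i := by
  induction k with
  | zero => rw [iter_zero, pow_zero, hh_one, one_smul]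
  | succ n ih => rw [iter_succ, ih, pow_succ', hh_mul, mul_smul]

theorem prod_hh (H : Subgroup G) {I : Type} [MulAction H I] (ε : H → I → ℤˣ)
    (h1 : ∀ g h i, ε (g * h) i = ε g (h • i) * ε h i) (g : G) (x : G ⧸ H) (k : ℕ) (i : I) :
    ∏ l ∈ range k, ε (hh H g (g ^ l • x)) (hh H (g ^ l) x • i) = ε (hh H (g ^ k) x) i := by
  induction k with
  | zero =>
    have h2 : ε 1 i = 1 := by
      have h3 := h1 1 1 i
      rw [one_mul, one_smul] at h3
      have h4 : ε 1 i * 1 = ε 1 i * ε 1 i := by rw [mul_one]; exact h3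
      exact (mul_left_cancel h4).symm
    rw [prod_range_zero, pow_zero, hh_one, h2]
  | succ n ih => rw [prod_range_succ, ih, pow_succ', hh_mul, h1, mul_comm]

/-- The trace formula for tensor induction. -/
theorem weil_formula [Finite G] (H : Subgroup G) [Fintype (G ⧸ H)] [DecidableEq (G ⧸ H)] {I : Type}
    [Fintype I] [DecidableEq I] [MulAction H I] (ε : H → I → ℤˣ) (deg : I → ℕ)
    (h1 : ∀ g h i, ε (g * h) i = ε g (h • i) * ε h i) (h2 : ∀ (h : H) i, deg (h • i) = deg i)
    (a : ℕ → H → ℤ) (j : ℕ)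
    (h3 : ∀ (h : H) (d : ℕ), d ≤ j →
      a d h = ∑ i ∈ univ.filter (fun i => h • i = i ∧ deg i = d), ((ε h i : ℤˣ) : ℤ)) (g : G) :
    weilCh H a j g =
      ∑ s ∈ univ.filter (fun s : G ⧸ H → I => (∀ x, s (g • x) = hh H g x • s x) ∧
        ∑ x, deg (s x) = j), ∏ x, ((ε (hh H g x) (s x) : ℤˣ) : ℤ) := by
  classical
  have : Fintype (Cyc g (G ⧸ H)) := Fintype.ofFinite _
  let c : G ⧸ H → I → PowerSeries ℤ := fun x i =>
    PowerSeries.C ((ε (hh H g x) i : ℤˣ) : ℤ) * PowerSeries.X ^ deg i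
  have hL : ∑ s ∈ univ.filter (fun s : G ⧸ H → I => (∀ x, s (g • x) = hh H g x • s x) ∧
        ∑ x, deg (s x) = j), ∏ x, ((ε (hh H g x) (s x) : ℤˣ) : ℤ) =
      PowerSeries.coeff j (∑ s ∈ univ.filter (fun s : G ⧸ H → I =>
        ∀ x, s (g • x) = hh H g x • s x), ∏ x, c x (s x)) := by
    rw [map_sum, ← filter_filter, sum_filter]
    refine sum_congr rfl fun s _ => ?_
    simp only [c]
    rw [prod_mul_distrib, ← map_prod, prod_pow_eq_pow_sum, PowerSeries.coeff_C_mul,
      PowerSeries.coeff_X_pow]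
    by_cases h4 : ∑ x, deg (s x) = j
    · rw [if_pos h4, if_pos h4.symm, mul_one]
    · rw [if_neg h4, if_neg (fun h5 => h4 h5.symm), mul_zero]
  have hC := sum_cycles g (fun (x : G ⧸ H) (i : I) => hh H g x • i) c
  rw [hL]
  refine Eq.trans ?_ (congrArg (PowerSeries.coeff j) hC).symm
  rw [weilCh, finprod_eq_prod_of_fintype, PowerSeries.coeff_prod, PowerSeries.coeff_prod]
  refine sum_congr rfl fun l hl => prod_congr rfl fun ω _ => ?_
  have hlj : l ω ≤ j := by
    rw [mem_finsuppAntidiag] at hl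
    rw [← hl.1]
    exact single_le_sum (f := fun ω => l ω) (fun _ _ => Nat.zero_le _) (mem_univ ω)
  generalize l ω = m at hlj
  rw [PowerSeries.coeff_mk, map_sum]
  set x := ω.out with hx
  set p := per g x with hp
  have hp0 : 0 < p := per_pos g x
  have hfix : g ^ p • x = x := (per_dvd g x p).2 dvd_rfl
  have hterm : ∀ i : I, PowerSeries.coeff m (∏ k ∈ range p, c (g ^ k • x)
      (iter g (fun (x : G ⧸ H) (i : I) => hh H g x • i) x k i)) =
      if p * deg i = m then ((ε (hh H (g ^ p) x) i : ℤˣ) : ℤ) else 0 := by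
    intro i
    simp only [c, iter_hh, h2]
    rw [prod_mul_distrib, prod_const, card_range, ← map_prod, PowerSeries.coeff_C_mul, ← pow_mul,
      PowerSeries.coeff_X_pow, ← prod_hh H ε h1 g x p i]
    by_cases h4 : p * deg i = m
    · rw [if_pos h4, if_pos (by rw [← h4, mul_comm]), mul_one]
      push_cast
      rfl
    · rw [if_neg h4, if_neg (fun h5 => h4 (by rw [h5, mul_comm])), mul_zero]
  simp only [hterm]
  simp only [iter_hh]
  have hmem : x.out⁻¹ * g ^ p * x.out ∈ H := by
    have := Ind_mem H (g ^ p) x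
    rwa [hfix] at this
  have hhe : hh H (g ^ p) x = ⟨x.out⁻¹ * g ^ p * x.out, hmem⟩ := by
    apply Subtype.ext
    change (g ^ p • x).out⁻¹ * g ^ p * x.out = x.out⁻¹ * g ^ p * x.out
    rw [hfix]
  split_ifs with hdvd
  · obtain ⟨d, rfl⟩ := hdvd
    have hd : p * d / p = d := Nat.mul_div_cancel_left d hp0
    have hdj : d ≤ j := le_trans (Nat.le_mul_of_pos_left d hp0) hlj
    rw [hd, extend, dif_pos hmem, ← hhe, h3 _ _ hdj, ← filter_filter, sum_filter]
    refine sum_congr rfl fun i _ => ?_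
    by_cases h4 : deg i = d
    · rw [if_pos h4, if_pos (by rw [h4])]
    · rw [if_neg h4, if_neg (fun h5 => h4 (Nat.eq_of_mul_eq_mul_left hp0 h5))]
  · symm
    refine sum_eq_zero fun i _ => ?_
    rw [if_neg]
    intro h4
    exact hdvd ⟨deg i, h4.symm⟩

/-- Tensor induction preserves signed permutation characters. -/
theorem SC.weil [Finite G] (H : Subgroup G) (a : ℕ → H → ℤ) (ha : ∀ d, SC H (a d)) (j : ℕ) :
    SC G (weilCh H a j) := by
  classical
  have : Fintype (G ⧸ H) := Fintype.ofFinite _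
  obtain ⟨I, i1, i2, i3, ε, deg, h1, h2, h3⟩ := SC.family j a ha
  have hsum : ∀ (g : G) (s : G ⧸ H → I),
      ∑ x, deg (hh H g (g⁻¹ • x) • s (g⁻¹ • x)) = ∑ x, deg (s x) := by
    intro g s
    simp only [h2]
    exact Fintype.sum_equiv (MulAction.toPerm g⁻¹) _ _ fun x => rfl
  let _ : MulAction G {s : G ⧸ H → I // ∑ x, deg (s x) = j} :=
    { smul := fun g s => ⟨fun x => hh H g (g⁻¹ • x) • s.1 (g⁻¹ • x), (hsum g s.1).trans s.2⟩
      one_smul := fun s => Subtype.ext (funext fun x => by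
        change hh H 1 ((1 : G)⁻¹ • x) • s.1 ((1 : G)⁻¹ • x) = s.1 x
        rw [hh_one, one_smul, inv_one, one_smul])
      mul_smul := fun a b s => Subtype.ext (funext fun x => by
        change hh H (a * b) ((a * b)⁻¹ • x) • s.1 ((a * b)⁻¹ • x) =
          hh H a (a⁻¹ • x) • hh H b (b⁻¹ • a⁻¹ • x) • s.1 (b⁻¹ • a⁻¹ • x)
        rw [hh_mul, mul_smul, mul_inv_rev, mul_smul, smul_inv_smul]) }
  have hact : ∀ (g : G) (s : {s : G ⧸ H → I // ∑ x, deg (s x) = j}) (x : G ⧸ H),
      (g • s).1 (g • x) = hh H g x • s.1 x := by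
    intro g s x
    change hh H g (g⁻¹ • g • x) • s.1 (g⁻¹ • g • x) = _
    rw [inv_smul_smul]
  refine ⟨{s : G ⧸ H → I // ∑ x, deg (s x) = j}, inferInstance, inferInstance, inferInstance,
    fun g s => ∏ x, ε (hh H g x) (s.1 x), ?_, ?_⟩
  · intro a b s
    have e : (∏ x, ε (hh H a x) ((b • s).1 x)) =
        ∏ x, ε (hh H a (b • x)) (hh H b x • s.1 x) := by
      refine (Fintype.prod_equiv (MulAction.toPerm b) _ _ fun x => ?_).symm
      change _ = ε (hh H a (b • x)) ((b • s).1 (b • x))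
      rw [hact]
    change (∏ x, ε (hh H (a * b) x) (s.1 x)) =
      (∏ x, ε (hh H a x) ((b • s).1 x)) * ∏ x, ε (hh H b x) (s.1 x)
    rw [e, ← prod_mul_distrib]
    refine prod_congr rfl fun x _ => ?_
    rw [hh_mul, h1]
  · intro g
    rw [weil_formula H ε deg h1 h2 a j h3 g]
    have hfix : ∀ s : {s : G ⧸ H → I // ∑ x, deg (s x) = j},
        g • s = s ↔ ∀ x, s.1 (g • x) = hh H g x • s.1 x := by
      intro s
      constructor
      · intro h4 x
        rw [← hact, h4]
      · intro h4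
        refine Subtype.ext (funext fun x => ?_)
        have h5 := hact g s (g⁻¹ • x)
        rw [smul_inv_smul] at h5
        rw [h5, ← h4, smul_inv_smul]
    rw [sum_filter, sum_filter]
    have h6 : ∀ s : G ⧸ H → I, (if (∀ x, s (g • x) = hh H g x • s x) ∧ ∑ x, deg (s x) = j then
        ∏ x, ((ε (hh H g x) (s x) : ℤˣ) : ℤ) else 0) =
        if ∑ x, deg (s x) = j then (if ∀ x, s (g • x) = hh H g x • s x then
        ∏ x, ((ε (hh H g x) (s x) : ℤˣ) : ℤ) else 0) else 0 := by
      intro s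
      by_cases h7 : ∑ x, deg (s x) = j
      · simp only [h7, and_true, if_true]
      · simp only [h7, and_false, if_false]
    rw [sum_congr rfl fun s _ => h6 s, ← sum_filter, ← sum_subtype_eq_sum_filter]
    refine sum_bij' (fun s _ => ⟨s.1, s.2⟩) (fun s _ => ⟨s.1, s.2⟩) ?_ ?_ ?_ ?_ ?_
    · intro s _
      exact mem_univ _
    · intro s _
      simp
    · intro s _
      rfl
    · intro s _
      rfl
    · intro s _
      simp only [hfix]
      split_ifs
      · push_cast
        rfl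
      · rfl

end Pool.Agent.PGZ2
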