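import Pool.Agent.PGZ2.Conv
import Pool.Agent.PGZ2.Weil
import Pool.Agent.PGZ.ALGM
import Pool.Agent.PGZ.GLOB

/-! # PGZ2: the L-functions of the class -/

set_option autoImplicit false

noncomputable section

namespace Pool.Agent.PGZ2

open Module Finset NumberField

open Pool.Agent.PGZ (act IsSgn euler)

theorem Good.sc {G : Type} [Group G] [Finite G] {Λ : Type} [AddCommGroup Λ] [Module.Free ℤ Λ]
    [Module.Finite ℤ Λ] [DistribMulAction G Λ] (h : Good G Λ) :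
    SC G (fun g => LinearMap.trace ℤ Λ (act Λ g)) := by
  rcases h with h | ⟨N, _, _, _, _, B, w, ε, f, hc, hr, hf, hs⟩
  · exact h
  · obtain ⟨S, _, τ, c, hS⟩ := PGZ.alg hc hr
    exact ((SC.of_isSgn hS).add hf).congr hs

theorem Cls.sc {G : Type} {iG : Group G} {a : ℕ → G → ℤ} (h : @Cls G iG a) :
    Finite G → ∀ j, SC G (a j) := by
  induction h with
  | perm G a h => exact fun _ => h
  | hilb G Λ h n => exact fun _ j => SC.gott (fun q => h.sc.symTr q) n j
  | add G a b _ _ iha ihb => exact fun hG j => (iha hG j).add (ihb hG j)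
  | prod G a b _ _ iha ihb =>
    exact fun hG j => SC.sum _ _ fun x _ => (iha hG x.1).mul (ihb hG x.2)
  | res G H a _ iha => exact fun _ j => SC.res H (iha inferInstance j)
  | ind G H a _ iha => exact fun hG j => SC.ind H (iha inferInstance j)
  | weil G H a _ iha => exact fun hG j => SC.weil H a (iha inferInstance) j

theorem main (F : Type) [Field F] [NumberField F] [IsGalois ℚ F] (a : ℕ → (F ≃ₐ[ℚ] F) → ℤ)
    (ha : Cls (F ≃ₐ[ℚ] F) a) (j : ℕ) (W : Type) [AddCommGroup W] [Module.Free ℤ W]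
    [Module.Finite ℤ W] [DistribMulAction (F ≃ₐ[ℚ] F) W]
    (hW : ∀ g : F ≃ₐ[ℚ] F, LinearMap.trace ℤ W (act W g) = a j g) :
    ∃ (D : ℂ → ℂ) (n : ℕ), Differentiable ℂ D ∧
      ∀ (P : Nat.Primes → Ideal (𝓞 F)) (σ : Nat.Primes → (F ≃ₐ[ℚ] F))
        (hP : ∀ p, (P p).IsPrime) (_ : ∀ p : Nat.Primes, ((p : ℕ) : 𝓞 F) ∈ P p)
        (hσ : ∀ p, IsArithFrobAt ℤ (σ p) (P p)) (s : ℂ), (j : ℝ) + 1 < s.re →
        HasProd (fun p : Nat.Primes => euler W (hP p) (hσ p) ((p : ℂ) ^ ((j : ℂ) - s)))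
          (D s / (s - ((j : ℂ) + 1)) ^ n) := by
  have h1 : SC (F ≃ₐ[ℚ] F) (fun g => LinearMap.trace ℤ W (act W g)) :=
    (ha.sc inferInstance j).congr hW
  obtain ⟨S, _, τ, c, hS⟩ := h1.isSgn
  obtain ⟨D, n, hD, h⟩ := PGZ.glob F W S τ c hS
  refine ⟨fun s => D (s - j), n, hD.comp (differentiable_id.sub_const _), ?_⟩
  intro P σ hP hp hσ s hs
  have h1 := h P σ hP hp hσ (s - j) (by
    rw [Complex.sub_re, Complex.natCast_re]
    linarith)
  have e1 : -(s - (j : ℂ)) = (j : ℂ) - s := by ring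
  have e2 : s - (j : ℂ) - 1 = s - ((j : ℂ) + 1) := by ring
  rw [e1, e2] at h1
  exact h1

end Pool.Agent.PGZ2
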